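import Pool.Agent.T9h36.SK.Spec2

set_option autoImplicit false

/-!
# The two estimates for the binomial coefficient
-/

namespace Pool.Agent.T9h80.SK

open Finset
open Pool.Agent.T9h36.SK

theorem pow_eq_sum (k n : ℕ) (hk : 2 ≤ k) :
    k ^ n = ∑ j ∈ range (n + 1), n.choose j * (k - 1) ^ (n - j) := by
  have h := add_pow 1 (k - 1) n
  rw [show 1 + (k - 1) = k by omega] at h
  rw [h]
  refine sum_congr rfl fun j _ => ?_
  rw [one_pow, one_mul, mul_comm]
  rfl

theorem ent1 : S_Ent1 := by
  intro k s hk
  rw [pow_eq_sum k (k * s) hk]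
  have h1 : k * s - s = (k - 1) * s := by rw [Nat.sub_mul, one_mul]
  have h2 : s ≤ k * s := Nat.le_mul_of_pos_left s (by omega)
  rw [← h1]
  exact single_le_sum (f := fun j => (k * s).choose j * (k - 1) ^ (k * s - j))
    (fun _ _ => Nat.zero_le _) (mem_range.2 (by omega))

theorem ratio (k n j : ℕ) (hj : j < n) :
    ((k - 1) * (j + 1)) * (n.choose (j + 1) * (k - 1) ^ (n - (j + 1))) =
      (n - j) * (n.choose j * (k - 1) ^ (n - j)) := by
  have h1 := Nat.choose_succ_right_eq n j
  have h2 : (k - 1) ^ (n - j) = (k - 1) ^ (n - (j + 1)) * (k - 1) := by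
    rw [← pow_succ]
    congr 1
    omega
  rw [h2]
  calc ((k - 1) * (j + 1)) * (n.choose (j + 1) * (k - 1) ^ (n - (j + 1)))
      = (n.choose (j + 1) * (j + 1)) * ((k - 1) ^ (n - (j + 1)) * (k - 1)) := by ring
    _ = (n.choose j * (n - j)) * ((k - 1) ^ (n - (j + 1)) * (k - 1)) := by rw [h1]
    _ = _ := by ring

theorem term_le (k m : ℕ) (hk : 2 ≤ k) (j : ℕ) (hj : j ≤ k * m) :
    (k * m).choose j * (k - 1) ^ (k * m - j) ≤
      (k * m).choose m * (k - 1) ^ (k * m - m) := by
  obtain ⟨q, rfl⟩ : ∃ q, k = q + 1 := ⟨k - 1, by omega⟩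
  have hq : 1 ≤ q := by omega
  rw [Nat.add_sub_cancel]
  have hr := ratio (q + 1) ((q + 1) * m)
  rw [Nat.add_sub_cancel] at hr
  set n := (q + 1) * m with hn
  have hn' : n = q * m + m := by rw [hn]; ring
  have up : ∀ i, m ≤ i → i ≤ n → n.choose i * q ^ (n - i) ≤ n.choose m * q ^ (n - m) := by
    intro i hi
    induction i, hi using Nat.le_induction with
    | base => intro _; exact le_rfl
    | succ i hi ih =>
      intro hin
      refine le_trans ?_ (ih (by omega))
      have h1 := hr i (by omega)
      have h2 : n - i ≤ q * (i + 1) := by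
        have : q * m ≤ q * (i + 1) := Nat.mul_le_mul_left q (by omega)
        omega
      have h3 : 0 < q * (i + 1) := Nat.mul_pos hq (Nat.succ_pos i)
      refine Nat.le_of_mul_le_mul_left ?_ h3
      rw [h1]
      exact Nat.mul_le_mul_right _ h2
  have down : ∀ d, d ≤ m → n.choose (m - d) * q ^ (n - (m - d)) ≤ n.choose m * q ^ (n - m) := by
    intro d
    induction d with
    | zero => intro _; exact le_rfl
    | succ d ih =>
      intro hd
      refine le_trans ?_ (ih (by omega))
      have h0 : m - d = (m - (d + 1)) + 1 := by omega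
      have h1 := hr (m - (d + 1)) (by omega)
      rw [← h0] at h1
      have h2 : q * (m - d) ≤ n - (m - (d + 1)) := by
        have : q * (m - d) ≤ q * m := Nat.mul_le_mul_left q (Nat.sub_le _ _)
        omega
      have h3 : 0 < n - (m - (d + 1)) := by
        have h4 : 0 < q * (m - d) := Nat.mul_pos hq (by omega)
        omega
      refine Nat.le_of_mul_le_mul_left ?_ h3
      rw [← h1]
      exact Nat.mul_le_mul_right _ h2
  rcases le_total m j with h | h
  · exact up j h hj
  · have h1 := down (m - j) (Nat.sub_le _ _)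
    rwa [Nat.sub_sub_self h] at h1

theorem ent2 : S_Ent2 := by
  intro k m hk
  rw [pow_eq_sum k (k * m) hk]
  have h1 : k * m - m = (k - 1) * m := by rw [Nat.sub_mul, one_mul]
  have h2 := sum_le_card_nsmul (range (k * m + 1))
    (fun j => (k * m).choose j * (k - 1) ^ (k * m - j))
    ((k * m).choose m * (k - 1) ^ ((k - 1) * m)) (by
      intro j hj
      rw [← h1]
      exact term_le k m hk j (by have := mem_range.1 hj; omega))
  rwa [card_range, smul_eq_mul] at h2

end Pool.Agent.T9h80.SK
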